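import Pool.Agent.Helper98.TQ.Defs

/-!
# TQ6: a multiple of a point with integral coordinates
-/

set_option autoImplicit false

namespace Pool.Agent.Helper43.TQ

open MvPolynomial NumberField Pool.Agent.Helper4.CB
open Pool.Agent.Helper69.CB (vl)

/-- **TQ6.** -/
theorem exists_scale {L R : Type} [Field L] [NumberField L] [CommRing R] {N : ℕ} (χ : R →+* L)
    (y : Fin N → L) (c : MvPolynomial (Fin N) R) (hc : eval₂ χ y c ≠ 0) :
    ∃ lam : L, (∀ (j : Fin N) (w : Pl L), vl w (lam * y j) ≤ 1) ∧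
      eval₂ χ (fun j => lam * y j) c ≠ 0 := by
  classical
  obtain ⟨d, hd⟩ := IsLocalization.exist_integer_multiples_of_finite (nonZeroDivisors (𝓞 L)) y
  have hd0 : algebraMap (𝓞 L) L d ≠ 0 := by
    intro h0
    exact nonZeroDivisors.ne_zero d.2
      ((map_eq_zero_iff _ (IsFractionRing.injective (𝓞 L) L)).1 h0)
  obtain ⟨δ, hδ⟩ : ∃ δ : L, δ = algebraMap (𝓞 L) L d := ⟨_, rfl⟩
  rw [← hδ] at hd0
  -- the polynomial
  obtain ⟨p, hp⟩ : ∃ p : Polynomial L, ∀ t : L,
      p.eval t = eval₂ χ (fun j => t * δ * y j) c := by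
    refine ⟨eval₂ (Polynomial.C.comp χ) (fun j => Polynomial.X * Polynomial.C (δ * y j)) c,
      fun t => ?_⟩
    rw [← Polynomial.coe_evalRingHom, MvPolynomial.eval₂_comp_left]
    congr 1
    · ext r
      simp
    · funext j
      simp [mul_assoc]
  have hp0 : p ≠ 0 := by
    intro h0
    apply hc
    have h1 := hp δ⁻¹
    rw [h0, Polynomial.eval_zero] at h1
    rw [h1]
    congr 1
    funext j
    rw [inv_mul_cancel₀ hd0, one_mul]
  obtain ⟨m, hm⟩ : ∃ m : ℕ, p.eval (m : L) ≠ 0 := by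
    by_contra hcon
    push Not at hcon
    refine hp0 (Polynomial.eq_zero_of_infinite_isRoot p ?_)
    exact (Set.infinite_range_of_injective (Nat.cast_injective (R := L))).mono (by
      rintro _ ⟨m, rfl⟩
      exact hcon m)
  refine ⟨m * δ, fun j w => ?_, ?_⟩
  · obtain ⟨r, hr⟩ := hd j
    have e : (m : L) * δ * y j = algebraMap (𝓞 L) L ((m : 𝓞 L) * r) := by
      rw [map_mul, map_natCast, hr, hδ, mul_assoc, Algebra.smul_def]
    rw [e]
    exact w.valuation_le_one _
  · rw [← hp]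
    exact hm

end Pool.Agent.Helper43.TQ
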